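import Pool.Agent.helper55.NM.Spec

set_option autoImplicit false

namespace Pool.Agent.helper3.NM

open Pool.Agent.NM Finset Nat

theorem PTB_lt {q : ℕ} (y : Fin q → ℝ) (hy : ∀ i, 0 < y i) (τ : Equiv.Perm (Fin q)) {i j : ℕ}
    (hij : i < j) (hj : j ≤ q) : Yp y τ i < Yp y τ j := by
  unfold Yp
  refine Finset.sum_lt_sum_of_subset (i := ⟨i, by omega⟩) ?_ ?_ ?_ ?_ ?_
  · intro a ha
    rw [Finset.mem_filter] at ha ⊢
    exact ⟨ha.1, lt_trans ha.2 hij⟩
  · rw [Finset.mem_filter]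
    exact ⟨Finset.mem_univ _, hij⟩
  · rw [Finset.mem_filter]
    intro h
    exact lt_irrefl _ h.2
  · exact hy _
  · intro a _ _
    exact (hy _).le

theorem PTB_le {q : ℕ} (y : Fin q → ℝ) (hy : ∀ i, 0 < y i) (τ : Equiv.Perm (Fin q)) {i j : ℕ}
    (hij : i ≤ j) (hj : j ≤ q) : Yp y τ i ≤ Yp y τ j := by
  rcases Nat.eq_or_lt_of_le hij with h | h
  · rw [h]
  · exact (PTB_lt y hy τ h hj).le

theorem PTB_inj {q : ℕ} (y : Fin q → ℝ) (hy : ∀ i, 0 < y i) (τ : Equiv.Perm (Fin q)) {i j : ℕ}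
    (hi : i ≤ q) (hj : j ≤ q) (h : Yp y τ i = Yp y τ j) : i = j := by
  rcases Nat.lt_trichotomy i j with h1 | h1 | h1
  · exact absurd h (ne_of_lt (PTB_lt y hy τ h1 hj))
  · exact h1
  · exact absurd h (ne_of_gt (PTB_lt y hy τ h1 hi))

theorem PTB (hGG2 : GG2_stmt) (hGG3 : GG3_stmt) (hBIN : BIN_stmt) : PTB_stmt := by
  intro p q k L X y ε τ hX hy hp hε hpL hkq hpq hr1 hr2 hkR hgood
  classical
  obtain ⟨P, hP⟩ : ∃ P : Finset (Fin p) → ℕ → Prop,
      ∀ I j, P I j ↔ (j ≤ q ∧ I.card + j ≤ k ∧ Yp y τ j = ∑ i ∈ I, X i) :=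
    ⟨_, fun _ _ => Iff.rfl⟩
  obtain ⟨J, hJ⟩ : ∃ J : Finset (Fin p) → ℕ, ∀ I, (∃ j, P I j) → P I (J I) := by
    refine ⟨fun I => if h : ∃ j, P I j then h.choose else 0, ?_⟩
    intro I h
    simp only [dif_pos h]
    exact h.choose_spec
  obtain ⟨C, hC⟩ : ∃ C : Finset (Finset (Fin p)),
      C = Finset.univ.filter (fun I : Finset (Fin p) => I.Nonempty ∧ ∃ j, P I j) := ⟨_, rfl⟩
  have hCm : ∀ I ∈ C, I.Nonempty ∧ J I ≤ q ∧ I.card + J I ≤ k ∧ Yp y τ (J I) = ∑ i ∈ I, X i := by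
    intro I hI
    rw [hC, Finset.mem_filter] at hI
    exact ⟨hI.2.1, (hP I (J I)).1 (hJ I hI.2.2)⟩
  have hW : Wt X y k τ ≤ ∑ I ∈ C, q.choose (J I) := by
    unfold Wt
    refine le_trans (Finset.sum_le_sum
      (g := fun I => if (I.Nonempty ∧ ∃ j, P I j) then q.choose (J I) else 0) ?_) ?_
    · intro I hI
      rw [Finset.mem_filter] at hI
      by_cases h : ∃ j, P I j
      · have hj := (hP I (J I)).1 (hJ I h)
        rw [if_pos ⟨hI.2, h⟩, Finset.sum_eq_single (J I)]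
        · split_ifs
          · exact le_rfl
          · exact Nat.zero_le _
        · intro b hb hne
          rw [if_neg]
          rintro ⟨_, h2⟩
          apply hne
          rw [Finset.mem_range] at hb
          exact PTB_inj y hy τ (by omega) hj.1 (h2.trans hj.2.2.symm)
        · intro h3
          exact absurd (Finset.mem_range.mpr (by omega)) h3
      · rw [if_neg (fun hh => h hh.2)]
        apply le_of_eq
        apply Finset.sum_eq_zero
        intro j hj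
        rw [if_neg]
        intro hh
        rw [Finset.mem_range] at hj
        exact h ⟨j, (hP I j).2 ⟨by omega, hh.1, hh.2⟩⟩
    · rw [← Finset.sum_filter]
      apply Finset.sum_le_sum_of_subset
      intro I hI
      rw [Finset.mem_filter] at hI
      rw [hC, Finset.mem_filter]
      exact ⟨Finset.mem_univ _, hI.2⟩
  obtain ⟨ρ, hρ⟩ : ∃ ρ : ℝ, ρ = (k : ℝ) / ((p : ℝ) + q) := ⟨_, rfl⟩
  obtain ⟨R, hR⟩ : ∃ R : ℝ, R = 1 - 2 * ε := ⟨_, rfl⟩
  rw [← hρ] at hr1 hr2 ⊢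
  rw [← hR] at hkR ⊢
  have hR0 : 0 ≤ R := by
    rw [hR]
    linarith
  have hR1 : R ≤ 1 := by
    rw [hR]
    linarith
  have hρ0 : 0 ≤ ρ := by linarith
  have hρ1 : 0 ≤ 1 - ρ := by linarith
  obtain ⟨d, hd⟩ : ∃ d : Finset (Fin p) → ℕ, ∀ I, d I = k - I.card - J I := ⟨_, fun _ => rfl⟩
  obtain ⟨M, hM⟩ : ∃ M : ℝ, M = 1 - (p : ℝ) ^ 2 / ((p : ℝ) + q) := ⟨_, rfl⟩
  rw [← hM]
  have hn0 : (0 : ℝ) < (p : ℝ) + q := by
    have : (0 : ℝ) < p := by exact_mod_cast (show 0 < p by omega)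
    positivity
  have hM0 : 0 ≤ M := by
    rw [hM, sub_nonneg, div_le_one hn0]
    exact_mod_cast hpq.le
  obtain ⟨N, hN⟩ : ∃ N : ℝ, N = ((p + q).choose k : ℝ) := ⟨_, rfl⟩
  rw [← hN]
  have hN0 : 0 ≤ N := by
    rw [hN]
    exact Nat.cast_nonneg _
  have hcard : ∀ I : Finset (Fin p), I.card ≤ p := fun I => by
    have := Finset.card_le_univ I
    rwa [Fintype.card_fin] at this
  have hB : ∀ I ∈ C, M * (q.choose (J I) : ℝ) ≤
      ρ ^ I.card * (1 - ρ) ^ (p - I.card) * R ^ d I * N := by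
    intro I hI
    obtain ⟨_, h1, h2, _⟩ := hCm I hI
    have h3 : k - I.card - d I = J I := by
      rw [hd]
      omega
    have h4 := hBIN p q k I.card (d I) R (hcard I) (by rw [hd]; omega) hkq hpq hR0 hkR
    rw [h3, ← hM, ← hρ, ← hN] at h4
    exact h4
  have hμ : ∀ I : Finset (Fin p), 0 ≤ ρ ^ I.card * (1 - ρ) ^ (p - I.card) := fun I => by
    positivity
  have hμ1 : ∑ I : Finset (Fin p), ρ ^ I.card * (1 - ρ) ^ (p - I.card) = 1 := by
    have h1 := Finset.sum_pow_mul_eq_add_pow ρ (1 - ρ) (Finset.univ : Finset (Fin p))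
    rw [Finset.powerset_univ, Finset.card_univ, Fintype.card_fin] at h1
    rw [h1]
    have : ρ + (1 - ρ) = 1 := by ring
    rw [this, one_pow]
  have hYk : 0 ≤ Yp y τ k := by
    unfold Yp
    exact Finset.sum_nonneg fun i _ => (hy _).le
  push Not at hgood
  push_cast at hgood
  obtain ⟨S, hS⟩ : ∃ S : Finset (Fin p),
      S = Finset.univ.filter (fun e : Fin p => ((p : ℝ) + 1) * X e < Yp y τ k) := ⟨_, rfl⟩
  obtain ⟨H, hH⟩ : ∃ H : Finset (Finset (Fin p)), H = C.filter (fun I => d I ≤ L) := ⟨_, rfl⟩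
  have hHm : ∀ I ∈ H, (p : ℝ) * Yp y τ k < ((p : ℝ) + 1) * ∑ i ∈ I, X i ∧
      ∑ i ∈ I, X i ≤ Yp y τ k := by
    intro I hI
    rw [hH, Finset.mem_filter] at hI
    obtain ⟨_, h1, h2, h3⟩ := hCm I hI.1
    have h4 := hI.2
    rw [hd] at h4
    have h5 := hcard I
    have h6 : Yp y τ (k - (p + L)) ≤ Yp y τ (J I) := PTB_le y hy τ (by omega) h1
    have h7 : Yp y τ (J I) ≤ Yp y τ k := PTB_le y hy τ (by omega) hkq
    rw [h3] at h6 h7
    refine ⟨?_, h7⟩
    have h8 := mul_le_mul_of_nonneg_left h6 (show (0 : ℝ) ≤ (p : ℝ) + 1 by positivity)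
    nlinarith
  have hHyp : Hyp p S H d := by
    refine ⟨?_, ?_, ?_⟩
    · intro I hI hIS
      obtain ⟨h1, _⟩ := hHm I hI
      have h2 : ((p : ℝ) + 1) * ∑ i ∈ I, X i ≤ ∑ i ∈ I, Yp y τ k := by
        rw [Finset.mul_sum]
        apply Finset.sum_le_sum
        intro i hi
        have := hIS hi
        rw [hS, Finset.mem_filter] at this
        exact this.2.le
      rw [Finset.sum_const, nsmul_eq_mul] at h2
      have h3 : (I.card : ℝ) ≤ p := by exact_mod_cast hcard I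
      have h4 := mul_le_mul_of_nonneg_right h3 hYk
      linarith
    · intro I₁ h1 I₂ h2 h3 h4
      by_contra hne
      obtain ⟨e, he2, he1⟩ : ∃ e ∈ I₂, e ∉ I₁ := by
        by_contra hcon
        push Not at hcon
        exact hne (Finset.Subset.antisymm h4 hcon)
      have heS : e ∉ S := by
        intro heS
        have : e ∈ I₂ ∩ S := Finset.mem_inter.mpr ⟨he2, heS⟩
        rw [← h3] at this
        exact he1 (Finset.mem_inter.mp this).1
      have h5 : Yp y τ k ≤ ((p : ℝ) + 1) * X e := by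
        by_contra hcon
        push Not at hcon
        apply heS
        rw [hS, Finset.mem_filter]
        exact ⟨Finset.mem_univ _, hcon⟩
      have h6 : ∑ i ∈ I₁, X i + X e ≤ ∑ i ∈ I₂, X i := by
        have h7 : ∑ i ∈ insert e I₁, X i ≤ ∑ i ∈ I₂, X i := by
          apply Finset.sum_le_sum_of_subset_of_nonneg
          · intro a ha
            rcases Finset.mem_insert.mp ha with h | h
            · rw [h]
              exact he2
            · exact h4 h
          · intro i _ _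
            exact (hX i).le
        rw [Finset.sum_insert he1] at h7
        linarith
      obtain ⟨g1, _⟩ := hHm I₁ h1
      obtain ⟨_, g2⟩ := hHm I₂ h2
      have h8 := mul_le_mul_of_nonneg_left h6 (show (0 : ℝ) ≤ (p : ℝ) + 1 by positivity)
      have h9 := mul_le_mul_of_nonneg_left g2 (show (0 : ℝ) ≤ (p : ℝ) + 1 by positivity)
      nlinarith
    · intro I₁ h1 I₂ h2 h3
      rw [hH, Finset.mem_filter] at h1 h2
      obtain ⟨_, a1, a2, a3⟩ := hCm I₁ h1.1
      obtain ⟨_, b1, b2, b3⟩ := hCm I₂ h2.1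
      have h4 := Finset.card_lt_card h3
      have h5 : ∑ i ∈ I₁, X i < ∑ i ∈ I₂, X i := by
        obtain ⟨e, he2, he1⟩ := Finset.exists_of_ssubset h3
        exact Finset.sum_lt_sum_of_subset h3.1 he2 he1 (hX e) (fun i _ _ => (hX i).le)
      rw [← a3, ← b3] at h5
      have h6 : J I₁ < J I₂ := by
        by_contra hcon
        push Not at hcon
        exact absurd (PTB_le y hy τ hcon a1) (not_le.mpr h5)
      rw [hd, hd]
      omega
  have hGG : ∑ I ∈ H, ρ ^ I.card * (1 - ρ) ^ (p - I.card) * R ^ d I ≤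
      (1 - ε) * (2 * ρ * (1 - ρ)) := by
    rcases Nat.lt_or_ge (Finset.univ \ S).card 3 with h | h
    · exact hGG2 p S H d ε ρ R hHyp hε hr1 hr2 hR0 (le_of_eq hR) hp (by omega)
    · exact hGG3 p S H d ε ρ R hHyp hε hr1 hr2 hR0 (le_of_eq hR) h
  have hrest : ∑ I ∈ C.filter (fun I => ¬ d I ≤ L),
      ρ ^ I.card * (1 - ρ) ^ (p - I.card) * R ^ d I ≤ R ^ L := by
    have h1 : ∑ I ∈ C.filter (fun I => ¬ d I ≤ L),
        ρ ^ I.card * (1 - ρ) ^ (p - I.card) * R ^ d I ≤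
        ∑ I ∈ C.filter (fun I => ¬ d I ≤ L), ρ ^ I.card * (1 - ρ) ^ (p - I.card) * R ^ L := by
      apply Finset.sum_le_sum
      intro I hI
      rw [Finset.mem_filter] at hI
      exact mul_le_mul_of_nonneg_left (pow_le_pow_of_le_one hR0 hR1 (by omega)) (hμ I)
    have h2 : ∑ I ∈ C.filter (fun I => ¬ d I ≤ L), ρ ^ I.card * (1 - ρ) ^ (p - I.card) * R ^ L ≤
        ∑ I : Finset (Fin p), ρ ^ I.card * (1 - ρ) ^ (p - I.card) * R ^ L := by
      apply Finset.sum_le_sum_of_subset_of_nonneg (Finset.subset_univ _)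
      intro I _ _
      exact mul_nonneg (hμ I) (pow_nonneg hR0 _)
    have h3 : ∑ I : Finset (Fin p), ρ ^ I.card * (1 - ρ) ^ (p - I.card) * R ^ L = R ^ L := by
      rw [← Finset.sum_mul, hμ1, one_mul]
    rw [h3] at h2
    exact h1.trans h2
  have hfull : M * (Wt X y k τ : ℝ) ≤
      ∑ I ∈ C, ρ ^ I.card * (1 - ρ) ^ (p - I.card) * R ^ d I * N := by
    have h1 : (Wt X y k τ : ℝ) ≤ ∑ I ∈ C, (q.choose (J I) : ℝ) := by exact_mod_cast hW
    refine (mul_le_mul_of_nonneg_left h1 hM0).trans ?_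
    rw [Finset.mul_sum]
    exact Finset.sum_le_sum hB
  refine hfull.trans ?_
  rw [← Finset.sum_mul, ← Finset.sum_filter_add_sum_filter_not C (fun I => d I ≤ L), ← hH]
  exact mul_le_mul_of_nonneg_right (add_le_add hGG hrest) hN0

end Pool.Agent.helper3.NM
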